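import Mathlib
import Pool.Agent.W534.FS2

open Polynomial Module

namespace Y146.HW

variable {K V : Type*} [Field K] [AddCommGroup V] [Module K V] [Module.Finite K V]

/-- the generalised eigenspace of dimension `d` is killed by `(F - α)^d` -/
theorem pow_kills (F : Module.End K V) (α : K) {g : ℕ}
    (hg : finrank K (F.maxGenEigenspace α) ≤ g) (x : V) (hx : x ∈ F.maxGenEigenspace α) :
    ((F - α • (1 : Module.End K V)) ^ g) x = 0 := by
  have hmaps : Set.MapsTo (F - algebraMap K (Module.End K V) α) (F.maxGenEigenspace α)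
      (F.maxGenEigenspace α) :=
    F.mapsTo_maxGenEigenspace_of_comm (Algebra.mul_sub_algebraMap_commutes F α) α
  have hnil := F.isNilpotent_restrict_maxGenEigenspace_sub_algebraMap α hmaps
  have h1 := IsNilpotent.charpoly_eq_X_pow_finrank hnil
  have h2 := LinearMap.aeval_self_charpoly
    ((F - algebraMap K (Module.End K V) α).restrict hmaps)
  rw [h1, map_pow, aeval_X] at h2
  have h3 : (((F - algebraMap K (Module.End K V) α).restrict hmaps) ^ g) = 0 := by
    obtain ⟨d, hd⟩ := Nat.exists_eq_add_of_le hg
    rw [hd, pow_add, h2, zero_mul]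
  have h4 := congrArg (fun f => f ⟨x, hx⟩) h3
  simp only [LinearMap.zero_apply] at h4
  have h5 := congrArg (Subtype.val) h4
  rw [Module.End.pow_restrict g hmaps] at h5
  rw [LinearMap.restrict_apply] at h5
  simpa [Algebra.algebraMap_eq_smul_one] using h5

theorem maxGen_pow_le (F : Module.End K V) (α : K) (n : ℕ) :
    F.maxGenEigenspace α ≤ (F ^ n).maxGenEigenspace (α ^ n) := by
  intro x hx
  rw [Module.End.mem_maxGenEigenspace] at hx ⊢
  obtain ⟨k, hk⟩ := hx
  refine ⟨k, ?_⟩
  have hcomm : Commute F (α • (1 : Module.End K V)) := by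
    rw [← Algebra.algebraMap_eq_smul_one]
    exact (Algebra.commutes α F).symm
  obtain ⟨H, hH⟩ : ∃ H : Module.End K V, F ^ n - (α ^ n) • (1 : Module.End K V) =
      H * (F - α • (1 : Module.End K V)) ∧ Commute H (F - α • (1 : Module.End K V)) := by
    have h1 := hcomm.mul_geom_sum₂ n
    refine ⟨∑ i ∈ Finset.range n, F ^ i * (α • (1 : Module.End K V)) ^ (n - 1 - i), ?_, ?_⟩
    · have h2 := hcomm.geom_sum₂_mul n
      rw [h2, _root_.smul_pow, one_pow]
    · apply Commute.sum_left
      intro i _
      apply Commute.mul_left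
      · exact ((Commute.refl F).sub_right hcomm).pow_left i
      · exact ((hcomm.symm).sub_right (Commute.refl _)).pow_left _
  rw [hH.1, hH.2.mul_pow, Module.End.mul_apply, hk, map_zero]

/-- the generalised eigenspaces of a power -/
theorem maxGen_pow_iSup [IsAlgClosed K] (F : Module.End K V) (β : K) (n : ℕ) :
    (F ^ n).maxGenEigenspace β = ⨆ α : {α : K // α ^ n = β}, F.maxGenEigenspace α.1 := by
  set A : Submodule K V := ⨆ α : {α : K // α ^ n = β}, F.maxGenEigenspace α.1 with hA
  set A' : Submodule K V := ⨆ α : {α : K // α ^ n ≠ β}, F.maxGenEigenspace α.1 with hA'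
  set U := (F ^ n).maxGenEigenspace β with hU
  have hAU : A ≤ U := by
    rw [hA, iSup_le_iff]
    rintro ⟨α, hα⟩
    have := maxGen_pow_le F α n
    rw [hα] at this
    exact this
  have hA'U : A' ≤ ⨆ γ, ⨆ (_ : γ ≠ β), (F ^ n).maxGenEigenspace γ := by
    rw [hA', iSup_le_iff]
    rintro ⟨α, hα⟩
    exact (maxGen_pow_le F α n).trans (le_iSup₂_of_le (α ^ n) hα le_rfl)
  have hdisj : Disjoint U A' :=
    ((F ^ n).independent_maxGenEigenspace β).mono_right hA'U
  have htop : A ⊔ A' = ⊤ := by
    rw [eq_top_iff, ← F.iSup_maxGenEigenspace_eq_top, iSup_le_iff]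
    intro α
    by_cases hα : α ^ n = β
    · exact le_sup_of_le_left (le_iSup (fun α : {α : K // α ^ n = β} =>
        F.maxGenEigenspace α.1) ⟨α, hα⟩)
    · exact le_sup_of_le_right (le_iSup (fun α : {α : K // α ^ n ≠ β} =>
        F.maxGenEigenspace α.1) ⟨α, hα⟩)
  have h1 : U = (A ⊔ A') ⊓ U := by rw [htop, top_inf_eq]
  rw [h1, sup_inf_assoc_of_le A' hAU, hdisj.symm.eq_bot, sup_bot_eq]

/-- semisimplicity of `F` at all `α` with `α^n = β` gives semisimplicity of `F^n` at `β` -/
theorem maxGen_pow_eq [IsAlgClosed K] (F : Module.End K V) {β : K} {n : ℕ}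
    (h : ∀ α, α ^ n = β → F.maxGenEigenspace α = F.eigenspace α) :
    (F ^ n).maxGenEigenspace β = (F ^ n).eigenspace β := by
  apply le_antisymm
  · rw [maxGen_pow_iSup, iSup_le_iff]
    rintro ⟨α, hα⟩ x hx
    have hx' : x ∈ F.eigenspace α := by
      rw [← h α hα]; exact hx
    rw [Module.End.mem_eigenspace_iff] at hx' ⊢
    have key : ∀ m : ℕ, (F ^ m) x = α ^ m • x := by
      intro m
      induction m with
      | zero => simp
      | succ m ih => rw [pow_succ', Module.End.mul_apply, ih, map_smul, hx', smul_smul, pow_succ]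
    rw [key, hα]
  · exact Module.End.genEigenspace (F ^ n) β |>.monotone le_top

/-- dimension count: a generalised eigenspace of a power and other generalised eigenspaces -/
theorem dim_count [IsAlgClosed K] (F : Module.End K V) (β : K) (n : ℕ) (s : Finset K)
    (hs : ∀ α ∈ s, α ^ n ≠ β) :
    finrank K ((F ^ n).maxGenEigenspace β) + ∑ α ∈ s, finrank K (F.maxGenEigenspace α) ≤
      finrank K V := by
  classical
  have key : ∀ t ⊆ s, finrank K ((F ^ n).maxGenEigenspace β ⊔
      ⨆ α ∈ t, F.maxGenEigenspace α : Submodule K V) =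
      finrank K ((F ^ n).maxGenEigenspace β) + ∑ α ∈ t, finrank K (F.maxGenEigenspace α) := by
    intro t
    induction t using Finset.induction_on with
    | empty =>
      intro _
      have h0 : (⨆ α ∈ (∅ : Finset K), F.maxGenEigenspace α) = ⊥ := by simp
      rw [h0, sup_bot_eq, Finset.sum_empty, add_zero]
    | insert γ t hγ ih =>
      intro ht
      have h1 := ih (fun x hx => ht (Finset.mem_insert_of_mem hx))
      have hγs := hs γ (ht (Finset.mem_insert_self _ _))
      have hd : Disjoint (F.maxGenEigenspace γ) ((F ^ n).maxGenEigenspace β ⊔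
          ⨆ α ∈ t, F.maxGenEigenspace α) := by
        refine (F.independent_maxGenEigenspace γ).mono_right ?_
        apply sup_le
        · rw [maxGen_pow_iSup, iSup_le_iff]
          rintro ⟨α, hα⟩
          exact le_iSup₂_of_le α (fun h => hγs (h ▸ hα)) le_rfl
        · rw [iSup₂_le_iff]
          intro α hα
          exact le_iSup₂_of_le α (fun h => hγ (h ▸ hα)) le_rfl
      rw [Finset.iSup_insert, Finset.sum_insert hγ]
      have h2 : (F ^ n).maxGenEigenspace β ⊔ (F.maxGenEigenspace γ ⊔
          ⨆ α ∈ t, F.maxGenEigenspace α) = F.maxGenEigenspace γ ⊔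
          ((F ^ n).maxGenEigenspace β ⊔ ⨆ α ∈ t, F.maxGenEigenspace α) := by
        rw [← sup_assoc, ← sup_assoc, sup_comm (F.maxGenEigenspace γ)]
      rw [h2]
      have h3 := Submodule.finrank_sup_add_finrank_inf_eq (F.maxGenEigenspace γ)
        ((F ^ n).maxGenEigenspace β ⊔ ⨆ α ∈ t, F.maxGenEigenspace α)
      rw [hd.eq_bot, finrank_bot, add_zero] at h3
      rw [h3, h1]
      ring
  rw [← key s subset_rfl]
  exact Submodule.finrank_le _

/-- An endomorphism commuting with `F` is a polynomial in `F` on the sum of the generalised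
eigenspaces of dimension one. -/
theorem commutant [IsAlgClosed K] (F : Module.End K V) (s : Finset K)
    (h : ∀ α ∈ s, finrank K (F.maxGenEigenspace α) ≤ 1) (T : Module.End K V)
    (hT : Commute T F) :
    ∃ Q : K[X], ∀ x ∈ ⨆ α ∈ s, F.maxGenEigenspace α, T x = aeval F Q x := by
  classical
  have h1 : ∀ α ∈ s, ∃ c : K, ∀ x ∈ F.maxGenEigenspace α, T x = c • x := by
    intro α hα
    have hmaps := F.mapsTo_maxGenEigenspace_of_comm hT.symm α
    rcases Nat.lt_or_ge (finrank K (F.maxGenEigenspace α)) 1 with h0 | h0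
    · refine ⟨0, fun x hx => ?_⟩
      have h2 : F.maxGenEigenspace α = ⊥ := Submodule.finrank_eq_zero.1 (by omega)
      rw [h2, Submodule.mem_bot] at hx
      rw [hx, map_zero, smul_zero]
    · have h2 : finrank K (F.maxGenEigenspace α) = 1 := le_antisymm (h α hα) h0
      obtain ⟨v, hv0, hv⟩ := finrank_eq_one_iff'.1 h2
      obtain ⟨c, hc⟩ := hv ⟨T v, hmaps v.2⟩
      refine ⟨c, fun x hx => ?_⟩
      obtain ⟨d, hd⟩ := hv ⟨x, hx⟩
      have e1 : x = d • (v : V) := (congrArg Subtype.val hd).symm
      have e2 : T v = c • (v : V) := (congrArg Subtype.val hc).symm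
      rw [e1, map_smul, e2, smul_comm]
  choose! c hc using h1
  refine ⟨Lagrange.interpolate s id c, ?_⟩
  intro x hx
  have h2 : (⨆ α ∈ s, F.maxGenEigenspace α) ≤
      LinearMap.ker (T - aeval F (Lagrange.interpolate s id c)) := by
    rw [iSup₂_le_iff]
    intro α hα y hy
    rw [LinearMap.mem_ker, LinearMap.sub_apply, sub_eq_zero, hc α hα y hy]
    have h3 := pow_kills F α (h α hα) y hy
    rw [pow_one, LinearMap.sub_apply] at h3
    simp only [LinearMap.smul_apply, Module.End.one_apply] at h3
    have h4 : F y = α • y := sub_eq_zero.1 h3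
    have h5 : ∀ Q : K[X], aeval F Q y = Q.eval α • y := by
      intro Q
      induction Q using Polynomial.induction_on' with
      | add p q hp hq => rw [map_add, LinearMap.add_apply, hp, hq, eval_add, add_smul]
      | monomial n r =>
        rw [aeval_monomial, eval_monomial, Module.End.mul_apply, Module.algebraMap_end_apply]
        have key : ∀ m : ℕ, (F ^ m) y = α ^ m • y := by
          intro m
          induction m with
          | zero => simp
          | succ m ih =>
            rw [pow_succ', Module.End.mul_apply, ih, map_smul, h4, smul_smul, pow_succ]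
        rw [key, smul_smul]
    rw [h5]
    have h6 := Lagrange.eval_interpolate_at_node (v := id) (r := c) (s := s)
      (Function.injective_id.injOn) hα
    simp only [id] at h6
    rw [h6]
  have := h2 hx
  rw [LinearMap.mem_ker, LinearMap.sub_apply, sub_eq_zero] at this
  exact this

end Y146.HW
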