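import Mathlib
import Pool.Agent.W534.FS1

open Polynomial Module

namespace Y146.HW

open W534.FS

/-- The number of unit roots of `P`: the degree of `P` minus the multiplicity of `0` modulo `p`. -/
noncomputable def ur (p : ℕ) (P : ℤ[X]) : ℕ := P.natDegree - td p P

theorem ur_add {p : ℕ} (hp : p.Prime) {P : ℤ[X]} (hP : P.Monic) :
    ur p P + td p P = P.natDegree := by
  unfold ur
  have := td_le hp hP
  omega

/-- a polynomial with unit roots has a nonzero root modulo `p` -/
theorem exists_unit_root {p : ℕ} [Fact p.Prime] {E : ℤ[X]} (hE : E.Monic)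
    (h : td p E < E.natDegree) :
    ∃ ρ : AlgebraicClosure (ZMod p), ρ ≠ 0 ∧
      (E.map (Int.castRingHom (AlgebraicClosure (ZMod p)))).IsRoot ρ := by
  classical
  set k := AlgebraicClosure (ZMod p)
  set f : k[X] := E.map (Int.castRingHom k) with hf
  have hfm : f.Monic := hE.map _
  have hcard : f.roots.card = E.natDegree := by
    have h1 := (IsAlgClosed.splits f)
    rw [← (splits_iff_card_roots.1 h1).symm, hE.natDegree_map]
  have hfe : f = (E.map (Int.castRingHom (ZMod p))).map (algebraMap (ZMod p) k) := by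
    rw [hf, Polynomial.map_map]
    congr 1
  have htd : f.natTrailingDegree = td p E := by
    rw [hfe]
    unfold td
    set g := E.map (Int.castRingHom (ZMod p))
    have hg : g ≠ 0 := (hE.map _).ne_zero
    apply le_antisymm
    · apply natTrailingDegree_le_of_ne_zero
      rw [coeff_map]
      intro h0
      have h1 := (algebraMap (ZMod p) k).injective (h0.trans (map_zero _).symm)
      exact mt trailingCoeff_eq_zero.1 hg h1
    · apply le_natTrailingDegree
      · exact (Polynomial.map_ne_zero_iff (algebraMap (ZMod p) k).injective).2 hg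
      · intro m hm
        rw [coeff_map, coeff_eq_zero_of_lt_natTrailingDegree hm, map_zero]
  by_contra hall
  push Not at hall
  have h0 : ∀ ρ ∈ f.roots, ρ = 0 := by
    intro ρ hρ
    by_contra hne
    exact hall ρ hne ((mem_roots hfm.ne_zero).1 hρ)
  have h1 : f.roots.count 0 = f.roots.card := by
    rw [Multiset.count_eq_card]
    intro x hx
    exact (h0 x hx).symm
  rw [count_roots, rootMultiplicity_eq_natTrailingDegree', htd, hcard] at h1
  omega

/-- `cv + 1 ≤ a td + min(1, ur)` for the minimal polynomial of `z`, `z/q` not integral -/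
theorem cv_step {p a : ℕ} (hp : p.Prime) {K : Type*} [Field K] [CharZero K] {z : K}
    (hi : IsIntegral ℤ z) (hni : ¬ IsIntegral ℤ (z / (p : K) ^ a)) :
    cv p a (minpoly ℤ z) + 1 ≤ a * td p (minpoly ℤ z) + ur p (minpoly ℤ z) := by
  have hEm := minpoly.monic hi
  have h1 := cv_lt (a := a) hp hi hni
  have h2 := cv_le_td (a := a) hp hEm
  have h3 := ur_add hp hEm
  rcases Nat.eq_zero_or_pos (ur p (minpoly ℤ z)) with h | h
  · have h4 : td p (minpoly ℤ z) = (minpoly ℤ z).natDegree := by omega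
    rw [h, h4]
    omega
  · omega

/-- The multiplicity of a root `z` of `P`, `z/q` not integral, is at most the multiplicity of a
nonzero root of `P` modulo `p`, or at most `a (h - s)`, where `s` is the number of unit roots. -/
theorem mult_le {p a h : ℕ} [Fact p.Prime] {K : Type*} [Field K] [CharZero K] {P : ℤ[X]}
    (hP : P.Monic) {z : K} (hz : aeval z P = 0)
    (hni : ¬ IsIntegral ℤ (z / (p : K) ^ a))
    (hnh : ∀ j, h ≤ j → j ≤ P.natDegree →
      ((p : ℤ) ^ a) ^ (j - h) ∣ P.coeff (P.natDegree - j)) :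
    (∃ ρ : AlgebraicClosure (ZMod p), ρ ≠ 0 ∧
      mu P z ≤ rootMultiplicity ρ (P.map (Int.castRingHom (AlgebraicClosure (ZMod p))))) ∨
    mu P z + a * ur p P ≤ a * h := by
  have hp : p.Prime := Fact.out
  have hzi := integral_of_root hP hz
  obtain ⟨k, G, hGm, hEm, hPG, hk0, hd, hk⟩ := factor hP hz
  set E := minpoly ℤ z with hE
  have hmu : mu P z = k := hk
  rcases Nat.eq_zero_or_pos (ur p E) with h0 | h0
  · right
    have h3 := ur_add hp hEm
    have h1 := cv_lt (a := a) hp hzi hni
    have h2 := cv_le_td (a := a) hp hGm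
    have h4 := cv_ge hp hP hnh
    have h5 : cv p a P = k * cv p a E + cv p a G := by
      conv_lhs => rw [hPG]
      rw [cv_mul hp (hEm.pow _) hGm, cv_pow hp hEm]
    have h6 : td p P = k * td p E + td p G := by
      conv_lhs => rw [hPG]
      rw [td_mul hp (hEm.pow _) hGm, td_pow hp hEm]
    have h7 : P.natDegree = k * E.natDegree + G.natDegree := by
      conv_lhs => rw [hPG]
      rw [(hEm.pow _).natDegree_mul hGm, hEm.natDegree_pow]
    have h8 := ur_add hp hP
    have h9 : td p E = E.natDegree := by omega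
    rw [h9] at h6
    have h10 : k * (cv p a E + 1) ≤ k * (a * E.natDegree) := Nat.mul_le_mul_left _ h1
    have h11 : a * td p P = k * (a * E.natDegree) + a * td p G := by rw [h6]; ring
    have h12 : a * P.natDegree ≤ a * (P.natDegree - h) + a * h := by
      rw [← mul_add]; apply Nat.mul_le_mul_left; omega
    have h13 : a * P.natDegree = a * ur p P + a * td p P := by rw [← h8]; ring
    rw [hmu]
    rw [mul_add, mul_one] at h10
    omega
  · left
    obtain ⟨ρ, hρ, hr⟩ := exists_unit_root (p := p) hEm (by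
      have := ur_add hp hEm
      omega)
    refine ⟨ρ, hρ, ?_⟩
    rw [hmu, le_rootMultiplicity_iff (hP.map _).ne_zero, hPG, Polynomial.map_mul,
      Polynomial.map_pow]
    exact Dvd.dvd.mul_right (pow_dvd_pow_of_dvd (dvd_iff_isRoot.2 hr) _) _

/-- The multiplicities of non-conjugate roots `z`, `z/q` not integral, add up to at most
`s + a (h - s)`, `s` the number of unit roots. -/
theorem sum_le' {p a h : ℕ} (hp : p.Prime) {K : Type*} [Field K] [CharZero K] {P : ℤ[X]}
    (hP : P.Monic) (Z : Finset K)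
    (hZ : ∀ z ∈ Z, aeval z P = 0)
    (hd : ∀ z ∈ Z, ∀ z' ∈ Z, minpoly ℤ z = minpoly ℤ z' → z = z')
    (hni : ∀ z ∈ Z, ¬ IsIntegral ℤ (z / (p : K) ^ a))
    (hnh : ∀ j, h ≤ j → j ≤ P.natDegree →
      ((p : ℤ) ^ a) ^ (j - h) ∣ P.coeff (P.natDegree - j)) :
    ∑ z ∈ Z, mu P z + a * ur p P ≤ ur p P + a * h := by
  classical
  obtain ⟨G, hGm, hG⟩ := factor_set hP Z hZ hd
  have hmonE : ∀ z ∈ Z, (minpoly ℤ z).Monic := fun z hz =>
    minpoly.monic (integral_of_root hP (hZ z hz))
  have hmon : (∏ w ∈ Z, (minpoly ℤ w) ^ (mu P w)).Monic :=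
    monic_prod_of_monic _ _ fun w hw => (hmonE w hw).pow _
  have key : ∀ S ⊆ Z, (∏ w ∈ S, (minpoly ℤ w) ^ (mu P w)).Monic ∧
      cv p a (∏ w ∈ S, (minpoly ℤ w) ^ (mu P w)) + ∑ w ∈ S, mu P w ≤
        a * td p (∏ w ∈ S, (minpoly ℤ w) ^ (mu P w)) +
          ur p (∏ w ∈ S, (minpoly ℤ w) ^ (mu P w)) := by
    intro S
    induction S using Finset.induction_on with
    | empty => intro _; simp [cv_one hp]
    | insert w S hw ih =>
      intro hS
      obtain ⟨h1, h2⟩ := ih (fun x hx => hS (Finset.mem_insert_of_mem hx))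
      have hwZ : w ∈ Z := hS (Finset.mem_insert_self _ _)
      have h3 := cv_step (a := a) hp (integral_of_root hP (hZ w hwZ)) (hni w hwZ)
      rw [Finset.prod_insert hw, Finset.sum_insert hw]
      have hm : ((minpoly ℤ w) ^ (mu P w)).Monic := (hmonE w hwZ).pow _
      refine ⟨hm.mul h1, ?_⟩
      have e1 := ur_add hp (hm.mul h1)
      have e2 := ur_add hp h1
      have e3 := ur_add hp (hmonE w hwZ)
      have e4 : ((minpoly ℤ w) ^ (mu P w) * ∏ w ∈ S, (minpoly ℤ w) ^ (mu P w)).natDegree =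
          mu P w * (minpoly ℤ w).natDegree + (∏ w ∈ S, (minpoly ℤ w) ^ (mu P w)).natDegree := by
        rw [hm.natDegree_mul h1, (hmonE w hwZ).natDegree_pow]
      have e5 := td_mul hp hm h1
      rw [td_pow hp (hmonE w hwZ)] at e5
      rw [cv_mul hp hm h1, cv_pow hp (hmonE w hwZ)]
      have e6 : ur p ((minpoly ℤ w) ^ (mu P w) * ∏ w ∈ S, (minpoly ℤ w) ^ (mu P w)) =
          mu P w * ur p (minpoly ℤ w) + ur p (∏ w ∈ S, (minpoly ℤ w) ^ (mu P w)) := by
        have e7 : mu P w * (minpoly ℤ w).natDegree =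
            mu P w * ur p (minpoly ℤ w) + mu P w * td p (minpoly ℤ w) := by rw [← e3]; ring
        omega
      rw [e5, e6]
      have h4 := Nat.mul_le_mul_left (mu P w) h3
      have h5 : mu P w * (cv p a (minpoly ℤ w) + 1) =
        mu P w * cv p a (minpoly ℤ w) + mu P w := by ring
      have h6 : mu P w * (a * td p (minpoly ℤ w) + ur p (minpoly ℤ w)) =
        a * (mu P w * td p (minpoly ℤ w)) + mu P w * ur p (minpoly ℤ w) := by ring
      rw [h5, h6] at h4
      rw [mul_add]
      omega
  obtain ⟨-, h2⟩ := key Z subset_rfl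
  have h3 := cv_ge hp hP hnh
  have h4 := cv_le_td (a := a) hp hGm
  have h5 : cv p a P = cv p a (∏ w ∈ Z, (minpoly ℤ w) ^ (mu P w)) + cv p a G := by
    conv_lhs => rw [hG]
    exact cv_mul hp hmon hGm
  have h6 : td p P = td p (∏ w ∈ Z, (minpoly ℤ w) ^ (mu P w)) + td p G := by
    conv_lhs => rw [hG]
    exact td_mul hp hmon hGm
  have h7 : P.natDegree = (∏ w ∈ Z, (minpoly ℤ w) ^ (mu P w)).natDegree + G.natDegree := by
    conv_lhs => rw [hG]
    exact hmon.natDegree_mul hGm
  have h8 := ur_add hp hP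
  have h9 := ur_add hp hmon
  have h10 := ur_add hp hGm
  have h11 : a * td p P = a * td p (∏ w ∈ Z, (minpoly ℤ w) ^ (mu P w)) + a * td p G := by
    rw [h6]; ring
  have h12 : a * P.natDegree ≤ a * (P.natDegree - h) + a * h := by
    rw [← mul_add]; apply Nat.mul_le_mul_left; omega
  have h13 : a * P.natDegree = a * ur p P + a * td p P := by rw [← h8]; ring
  omega

/-- the Newton polygon lies above the line `c j - D` -/
theorem cv_ge' {p a c D : ℕ} (hp : p.Prime) {P : ℤ[X]} (hP : P.Monic)
    (hnh : ∀ j, j ≤ P.natDegree → ((p : ℤ) ^ a) ^ (c * j - D) ∣ P.coeff (P.natDegree - j)) :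
    a * c * P.natDegree ≤ cv p (a * c) P + a * D := by
  have hdvd : (p : ℤ) ^ (a * (c * P.natDegree - D)) ∣ (sc ((p : ℤ) ^ (a * c)) P).content := by
    rw [dvd_content_iff_C_dvd, C_dvd_iff_dvd_coeff]
    intro i
    rw [sc_coeff]
    by_cases hi : P.natDegree < i
    · rw [coeff_eq_zero_of_natDegree_lt hi, zero_mul]; exact dvd_zero _
    push Not at hi
    have h1 := hnh (P.natDegree - i) (Nat.sub_le _ _)
    rw [Nat.sub_sub_self hi, ← pow_mul] at h1
    have h2 : (p : ℤ) ^ (a * (c * P.natDegree - D)) ∣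
        (p : ℤ) ^ (a * (c * (P.natDegree - i) - D)) * ((p : ℤ) ^ (a * c)) ^ i := by
      rw [← pow_mul, ← pow_add]
      apply pow_dvd_pow
      rw [mul_assoc a c i, ← mul_add]
      apply Nat.mul_le_mul_left
      have h3 : c * P.natDegree = c * (P.natDegree - i) + c * i := by
        rw [← mul_add, Nat.sub_add_cancel hi]
      omega
    exact dvd_trans h2 (mul_dvd_mul h1 dvd_rfl)
  have h4 := Int.natAbs_dvd_natAbs.2 hdvd
  rw [(cv_spec hp hP).2, Int.natAbs_pow, Int.natAbs_natCast,
    Nat.pow_dvd_pow_iff_le_right hp.one_lt] at h4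
  have h5 : a * (c * P.natDegree) ≤ a * (c * P.natDegree - D) + a * D := by
    rw [← mul_add]; apply Nat.mul_le_mul_left; omega
  rw [mul_assoc]
  omega

/-- The multiplicity of a root `z` of `P`, `z/p^b` not integral, is at most the multiplicity of a
nonzero root of `P` modulo `p`, or at most `D - b s`, where `s` is the number of unit roots. -/
theorem mult_le_gen {p b D : ℕ} [Fact p.Prime] {K : Type*} [Field K] [CharZero K] {P : ℤ[X]}
    (hP : P.Monic) {z : K} (hz : aeval z P = 0)
    (hni : ¬ IsIntegral ℤ (z / (p : K) ^ b)) (h4 : b * P.natDegree ≤ cv p b P + D) :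
    (∃ ρ : AlgebraicClosure (ZMod p), ρ ≠ 0 ∧
      mu P z ≤ rootMultiplicity ρ (P.map (Int.castRingHom (AlgebraicClosure (ZMod p))))) ∨
    mu P z + b * ur p P ≤ D := by
  have hp : p.Prime := Fact.out
  have hzi := integral_of_root hP hz
  obtain ⟨k, G, hGm, hEm, hPG, hk0, hd, hk⟩ := factor hP hz
  set E := minpoly ℤ z with hE
  have hmu : mu P z = k := hk
  rcases Nat.eq_zero_or_pos (ur p E) with h0 | h0
  · right
    have h3 := ur_add hp hEm
    have h1 := cv_lt (a := b) hp hzi hni
    have h2 := cv_le_td (a := b) hp hGm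
    have h5 : cv p b P = k * cv p b E + cv p b G := by
      conv_lhs => rw [hPG]
      rw [cv_mul hp (hEm.pow _) hGm, cv_pow hp hEm]
    have h6 : td p P = k * td p E + td p G := by
      conv_lhs => rw [hPG]
      rw [td_mul hp (hEm.pow _) hGm, td_pow hp hEm]
    have h8 := ur_add hp hP
    have h9 : td p E = E.natDegree := by omega
    rw [h9] at h6
    have h10 : k * (cv p b E + 1) ≤ k * (b * E.natDegree) := Nat.mul_le_mul_left _ h1
    have h11 : b * td p P = k * (b * E.natDegree) + b * td p G := by rw [h6]; ring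
    have h13 : b * P.natDegree = b * ur p P + b * td p P := by rw [← h8]; ring
    rw [hmu]
    rw [mul_add, mul_one] at h10
    omega
  · left
    obtain ⟨ρ, hρ, hr⟩ := exists_unit_root (p := p) hEm (by
      have := ur_add hp hEm
      omega)
    refine ⟨ρ, hρ, ?_⟩
    rw [hmu, le_rootMultiplicity_iff (hP.map _).ne_zero, hPG, Polynomial.map_mul,
      Polynomial.map_pow]
    exact Dvd.dvd.mul_right (pow_dvd_pow_of_dvd (dvd_iff_isRoot.2 hr) _) _

/-- The multiplicities of non-conjugate roots `z`, `z/p^b` not integral, add up to at most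
`s + D - b s`, `s` the number of unit roots. -/
theorem sum_le_gen {p b D : ℕ} (hp : p.Prime) {K : Type*} [Field K] [CharZero K] {P : ℤ[X]}
    (hP : P.Monic) (Z : Finset K)
    (hZ : ∀ z ∈ Z, aeval z P = 0)
    (hd : ∀ z ∈ Z, ∀ z' ∈ Z, minpoly ℤ z = minpoly ℤ z' → z = z')
    (hni : ∀ z ∈ Z, ¬ IsIntegral ℤ (z / (p : K) ^ b))
    (h3 : b * P.natDegree ≤ cv p b P + D) :
    ∑ z ∈ Z, mu P z + b * ur p P ≤ ur p P + D := by
  classical
  obtain ⟨G, hGm, hG⟩ := factor_set hP Z hZ hd
  have hmonE : ∀ z ∈ Z, (minpoly ℤ z).Monic := fun z hz =>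
    minpoly.monic (integral_of_root hP (hZ z hz))
  have hmon : (∏ w ∈ Z, (minpoly ℤ w) ^ (mu P w)).Monic :=
    monic_prod_of_monic _ _ fun w hw => (hmonE w hw).pow _
  have key : ∀ S ⊆ Z, (∏ w ∈ S, (minpoly ℤ w) ^ (mu P w)).Monic ∧
      cv p b (∏ w ∈ S, (minpoly ℤ w) ^ (mu P w)) + ∑ w ∈ S, mu P w ≤
        b * td p (∏ w ∈ S, (minpoly ℤ w) ^ (mu P w)) +
          ur p (∏ w ∈ S, (minpoly ℤ w) ^ (mu P w)) := by
    intro S
    induction S using Finset.induction_on with
    | empty => intro _; simp [cv_one hp]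
    | insert w S hw ih =>
      intro hS
      obtain ⟨h1, h2⟩ := ih (fun x hx => hS (Finset.mem_insert_of_mem hx))
      have hwZ : w ∈ Z := hS (Finset.mem_insert_self _ _)
      have h3 := cv_step (a := b) hp (integral_of_root hP (hZ w hwZ)) (hni w hwZ)
      rw [Finset.prod_insert hw, Finset.sum_insert hw]
      have hm : ((minpoly ℤ w) ^ (mu P w)).Monic := (hmonE w hwZ).pow _
      refine ⟨hm.mul h1, ?_⟩
      have e1 := ur_add hp (hm.mul h1)
      have e2 := ur_add hp h1
      have e3 := ur_add hp (hmonE w hwZ)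
      have e4 : ((minpoly ℤ w) ^ (mu P w) * ∏ w ∈ S, (minpoly ℤ w) ^ (mu P w)).natDegree =
          mu P w * (minpoly ℤ w).natDegree + (∏ w ∈ S, (minpoly ℤ w) ^ (mu P w)).natDegree := by
        rw [hm.natDegree_mul h1, (hmonE w hwZ).natDegree_pow]
      have e5 := td_mul hp hm h1
      rw [td_pow hp (hmonE w hwZ)] at e5
      rw [cv_mul hp hm h1, cv_pow hp (hmonE w hwZ)]
      have e6 : ur p ((minpoly ℤ w) ^ (mu P w) * ∏ w ∈ S, (minpoly ℤ w) ^ (mu P w)) =
          mu P w * ur p (minpoly ℤ w) + ur p (∏ w ∈ S, (minpoly ℤ w) ^ (mu P w)) := by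
        have e7 : mu P w * (minpoly ℤ w).natDegree =
            mu P w * ur p (minpoly ℤ w) + mu P w * td p (minpoly ℤ w) := by rw [← e3]; ring
        omega
      rw [e5, e6]
      have h4 := Nat.mul_le_mul_left (mu P w) h3
      have h5 : mu P w * (cv p b (minpoly ℤ w) + 1) =
        mu P w * cv p b (minpoly ℤ w) + mu P w := by ring
      have h6 : mu P w * (b * td p (minpoly ℤ w) + ur p (minpoly ℤ w)) =
        b * (mu P w * td p (minpoly ℤ w)) + mu P w * ur p (minpoly ℤ w) := by ring
      rw [h5, h6] at h4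
      rw [mul_add]
      omega
  obtain ⟨-, h2⟩ := key Z subset_rfl
  have h4 := cv_le_td (a := b) hp hGm
  have h5 : cv p b P = cv p b (∏ w ∈ Z, (minpoly ℤ w) ^ (mu P w)) + cv p b G := by
    conv_lhs => rw [hG]
    exact cv_mul hp hmon hGm
  have h6 : td p P = td p (∏ w ∈ Z, (minpoly ℤ w) ^ (mu P w)) + td p G := by
    conv_lhs => rw [hG]
    exact td_mul hp hmon hGm
  have h7 : P.natDegree = (∏ w ∈ Z, (minpoly ℤ w) ^ (mu P w)).natDegree + G.natDegree := by
    conv_lhs => rw [hG]
    exact hmon.natDegree_mul hGm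
  have h8 := ur_add hp hP
  have h9 := ur_add hp hmon
  have h10 := ur_add hp hGm
  have h11 : b * td p P = b * td p (∏ w ∈ Z, (minpoly ℤ w) ^ (mu P w)) + b * td p G := by
    rw [h6]; ring
  have h13 : b * P.natDegree = b * ur p P + b * td p P := by rw [← h8]; ring
  omega

end Y146.HW
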