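import Mathlib
import Pool.Agent.Y146.HW.Poly
import Pool.Agent.W534.FS7

open Polynomial Module

namespace Y146.HW

open W534.FS

/-- functional equation of an integral polynomial all of whose roots satisfy `|z|² = Q` -/
theorem recip {Q : ℝ} {R : ℤ[X]} (hR : R.Monic)
    (hw : ∀ z : ℂ, aeval z R = 0 → ‖z‖ ^ 2 = Q) (hQ : 0 < Q) (t : ℂ) (ht : t ≠ 0) :
    t ^ R.natDegree * aeval ((Q : ℂ) / t) R = (R.coeff 0 : ℂ) * aeval t R := by
  classical
  set f : ℂ[X] := R.map (Int.castRingHom ℂ) with hf
  have hfm : f.Monic := hR.map _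
  have hsp : f.Splits := IsAlgClosed.splits f
  have hcard : f.roots.card = R.natDegree := by
    rw [← (splits_iff_card_roots.1 hsp).symm, hR.natDegree_map]
  have hprod : f = (f.roots.map (fun z => X - C z)).prod := by
    have := hsp.eq_prod_roots
    rw [hfm.leadingCoeff, C_1, one_mul] at this
    exact this
  have hev : ∀ x : ℂ, aeval x R = f.eval x := by
    intro x; rw [hf, eval_map, aeval_def]; rfl
  have heval : ∀ x : ℂ, f.eval x = (f.roots.map (fun z => x - z)).prod := by
    intro x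
    conv_lhs => rw [hprod]
    rw [eval_multiset_prod, Multiset.map_map]
    congr 1
    apply Multiset.map_congr rfl
    intro z _
    simp
  have hconj : f.roots.map (starRingEnd ℂ) = f.roots := by
    have h1 : f.map (starRingEnd ℂ) = f := by
      rw [hf, Polynomial.map_map]
      congr 1
      exact RingHom.ext_int _ _
    have h2 := hsp.roots_map (starRingEnd ℂ)
    rw [h1] at h2
    exact h2.symm
  have hz : ∀ z ∈ f.roots, z ≠ 0 ∧ (Q : ℂ) = z * (starRingEnd ℂ) z := by
    intro z hz
    rw [mem_roots hfm.ne_zero, IsRoot, ← hev] at hz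
    have h1 := hw z hz
    constructor
    · rintro rfl
      rw [norm_zero, zero_pow two_ne_zero] at h1
      exact hQ.ne h1
    · rw [Complex.mul_conj, Complex.normSq_eq_norm_sq, h1]
  have h0 : (R.coeff 0 : ℂ) = (f.roots.map (fun z => - z)).prod := by
    have h1 := heval 0
    rw [← coeff_zero_eq_eval_zero, hf, coeff_map] at h1
    simp only [zero_sub] at h1
    exact h1
  rw [h0, hev, hev, heval, heval t]
  have h2 : (f.roots.map (fun z => t - z)).prod =
      (f.roots.map (fun z => t - (starRingEnd ℂ) z)).prod := by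
    conv_lhs => rw [← hconj]
    rw [Multiset.map_map]
    rfl
  rw [h2, ← Multiset.prod_map_mul]
  have h3 : t ^ R.natDegree = (f.roots.map (fun _ => t)).prod := by
    rw [Multiset.map_const', Multiset.prod_replicate, hcard]
  rw [h3, ← Multiset.prod_map_mul]
  congr 1
  apply Multiset.map_congr rfl
  intro z hzr
  obtain ⟨h4, h5⟩ := hz z hzr
  rw [h5]
  field_simp
  ring

/-- functional equation for the coefficients -/
theorem recip_coeff {Q : ℕ} {R : ℤ[X]} (hR : R.Monic)
    (hw : ∀ z : ℂ, aeval z R = 0 → ‖z‖ ^ 2 = Q) (hQ : 0 < Q) (i : ℕ) (hi : i ≤ R.natDegree) :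
    R.coeff i * (Q : ℤ) ^ i = R.coeff 0 * R.coeff (R.natDegree - i) := by
  classical
  set d := R.natDegree with hd
  set g : ℂ[X] := ∑ j ∈ Finset.range (d + 1), monomial (d - j) ((R.coeff j : ℂ) * (Q : ℂ) ^ j)
    with hg
  have hge : g = C (R.coeff 0 : ℂ) * R.map (Int.castRingHom ℂ) := by
    apply eq_of_infinite_eval_eq
    apply Set.Infinite.mono (s := {x : ℂ | x ≠ 0})
    · intro t ht
      have ht : t ≠ 0 := ht
      have h1 := recip hR hw (by exact_mod_cast hQ) t ht
      rw [Set.mem_ofPred_eq, eval_mul, eval_C, eval_map, hg, eval_finsetSum]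
      have h2 : eval₂ (Int.castRingHom ℂ) t R = aeval t R := by rw [aeval_def]; rfl
      rw [h2, ← h1, aeval_eq_sum_range, Finset.mul_sum]
      apply Finset.sum_congr rfl
      intro j hj
      have hj' : j ≤ d := Nat.lt_succ_iff.1 (Finset.mem_range.1 hj)
      rw [eval_monomial, zsmul_eq_mul, div_pow]
      have h3 : t ^ d = t ^ (d - j) * t ^ j := by rw [← pow_add, Nat.sub_add_cancel hj']
      have h4 : t ^ j ≠ 0 := pow_ne_zero _ ht
      rw [← hd, h3]
      field_simp
      push_cast
      ring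
    · exact (Set.finite_singleton (0 : ℂ)).infinite_compl
  have h5 := congrArg (fun P => coeff P (d - i)) hge
  simp only [coeff_C_mul, coeff_map, hg, finsetSum_coeff, coeff_monomial] at h5
  rw [Finset.sum_eq_single i] at h5
  · rw [if_pos rfl] at h5
    have h6 : ((R.coeff i * (Q : ℤ) ^ i : ℤ) : ℂ) =
        ((R.coeff 0 * R.coeff (d - i) : ℤ) : ℂ) := by
      push_cast
      rw [h5]
      simp
    exact_mod_cast h6
  · intro j hj hji
    rw [if_neg]
    have := Finset.mem_range.1 hj
    omega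
  · intro h
    exact absurd (Finset.mem_range.2 (by omega)) h

/-- the constant coefficient -/
theorem coeff_zero_sq {Q : ℕ} {R : ℤ[X]} (hR : R.Monic)
    (hw : ∀ z : ℂ, aeval z R = 0 → ‖z‖ ^ 2 = Q) :
    (R.coeff 0).natAbs ^ 2 = Q ^ R.natDegree := by
  classical
  set f : ℂ[X] := R.map (Int.castRingHom ℂ) with hf
  have hfm : f.Monic := hR.map _
  have hsp : f.Splits := IsAlgClosed.splits f
  have hcard : f.roots.card = R.natDegree := by
    rw [← (splits_iff_card_roots.1 hsp).symm, hR.natDegree_map]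
  have hprod : f = (f.roots.map (fun z => X - C z)).prod := by
    have := hsp.eq_prod_roots
    rw [hfm.leadingCoeff, C_1, one_mul] at this
    exact this
  have h1 : ‖(f.coeff 0)‖ ^ 2 = (Q : ℝ) ^ R.natDegree := by
    have h2 : f.coeff 0 = (f.roots.map (fun z => - z)).prod := by
      rw [coeff_zero_eq_eval_zero]
      conv_lhs => rw [hprod]
      rw [eval_multiset_prod, Multiset.map_map]
      congr 1
      apply Multiset.map_congr rfl
      intro z _
      simp
    have h3 : ∀ s : Multiset ℂ, (∀ z ∈ s, ‖z‖ ^ 2 = Q) →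
        ‖(s.map (fun z => - z)).prod‖ ^ 2 = (Q : ℝ) ^ s.card := by
      intro s
      induction s using Multiset.induction_on with
      | empty => intro _; simp
      | cons z s ih =>
        intro hs
        rw [Multiset.map_cons, Multiset.prod_cons, norm_mul, norm_neg, mul_pow,
          hs z (Multiset.mem_cons_self _ _), ih (fun x hx => hs x (Multiset.mem_cons_of_mem hx)),
          Multiset.card_cons, pow_succ']
    rw [h2, h3, hcard]
    intro z hz
    rw [mem_roots hfm.ne_zero, IsRoot, hf, eval_map] at hz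
    exact hw z (by rw [aeval_def]; exact hz)
  rw [hf, coeff_map] at h1
  simp only [eq_intCast, Complex.norm_intCast] at h1
  have h4 : (((R.coeff 0).natAbs ^ 2 : ℕ) : ℝ) = ((Q ^ R.natDegree : ℕ) : ℝ) := by
    push_cast
    rw [Nat.cast_natAbs, Int.cast_abs, h1]
  exact_mod_cast h4

/-- at most half of the roots are unit roots -/
theorem ur_half {p a w : ℕ} (hp : p.Prime) (ha : 0 < a) (hw0 : 0 < w) {R : ℤ[X]} (hR : R.Monic)
    (hw : ∀ z : ℂ, aeval z R = 0 → ‖z‖ ^ 2 = ((p : ℝ) ^ a) ^ w) : 2 * ur p R ≤ R.natDegree := by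
  have : Fact p.Prime := ⟨hp⟩
  set Q : ℕ := (p ^ a) ^ w with hQ
  have hQ0 : 0 < Q := pow_pos (pow_pos hp.pos a) w
  have hw' : ∀ z : ℂ, aeval z R = 0 → ‖z‖ ^ 2 = (Q : ℝ) := by
    intro z hz
    rw [hw z hz, hQ]
    push_cast
    rfl
  set d := R.natDegree with hd
  have h0 := coeff_zero_sq hR hw'
  have hdiv : ∀ i, 2 * i < d → (p : ℤ) ∣ R.coeff i := by
    intro i hi
    have h1 := recip_coeff hR hw' hQ0 i (by omega)
    have h2 := congrArg (fun x => Int.natAbs x ^ 2) h1
    simp only [Int.natAbs_mul, Int.natAbs_pow, Int.natAbs_natCast, mul_pow] at h2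
    rw [h0] at h2
    have h4 : Q ^ R.natDegree = Q ^ (d - 2 * i) * (Q ^ i) ^ 2 := by
      rw [← pow_mul Q i 2, ← pow_add]; congr 1; omega
    have h5 : (R.coeff i).natAbs ^ 2 =
        Q ^ (d - 2 * i) * (R.coeff (R.natDegree - i)).natAbs ^ 2 := by
      apply Nat.eq_of_mul_eq_mul_right (pow_pos (pow_pos hQ0 i) 2)
      rw [h2, h4]; ring
    rw [Int.natCast_dvd]
    apply hp.dvd_of_dvd_pow (n := 2)
    rw [h5]
    apply Dvd.dvd.mul_right
    apply dvd_pow
    · rw [hQ, ← pow_mul]; exact dvd_pow_self p (Nat.mul_pos ha hw0).ne'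
    · omega
  have h6 : td p R + td p R ≥ d := by
    by_contra hlt
    push Not at hlt
    have h7 := hdiv (td p R) (by omega)
    have h8 : (R.map (Int.castRingHom (ZMod p))).coeff (td p R) = 0 := by
      rw [coeff_map, Int.coe_castRingHom, ZMod.intCast_zmod_eq_zero_iff_dvd]
      exact h7
    exact mt trailingCoeff_eq_zero.1 (hR.map _).ne_zero h8
  have h9 := ur_add hp hR
  omega

/-- a polynomial all of whose roots are divisible by `q` has no unit roots -/
theorem ur_zero {p a : ℕ} (hp : p.Prime) (ha : 0 < a) {K : Type*} [Field K] [CharZero K]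
    [IsAlgClosed K] {G : ℤ[X]} (hG : G.Monic)
    (h : ∀ z : K, aeval z G = 0 → IsIntegral ℤ (z / (p : K) ^ a)) : ur p G = 0 := by
  have : Fact p.Prime := ⟨hp⟩
  have h1 : ∀ i, (p : ℤ) ^ (a * (G.natDegree - i)) ∣ G.coeff i := by
    intro i
    have := coeff_slope (p := p) (u := a) (h := 1) hp one_pos (K := K) hG
      (by intro z hz; rw [pow_one]; exact h z hz) i
    rwa [pow_one] at this
  have h2 : G.natDegree ≤ td p G := by
    apply le_natTrailingDegree (hG.map _).ne_zero
    intro i hi
    rw [coeff_map, Int.coe_castRingHom, ZMod.intCast_zmod_eq_zero_iff_dvd]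
    refine dvd_trans ?_ (h1 i)
    apply dvd_pow_self
    have : 0 < G.natDegree - i := by omega
    positivity
  have := ur_add hp hG
  omega

/-- conjugates of multiples of `q` are multiples of `q` -/
theorem conj_div {p a : ℕ} (hp : p.Prime) {K : Type*} [Field K] [CharZero K] {z z' : K}
    (hi : IsIntegral ℤ z) (hz' : aeval z' (minpoly ℤ z) = 0)
    (hd : IsIntegral ℤ (z / (p : K) ^ a)) : IsIntegral ℤ (z' / (p : K) ^ a) := by
  have hq : ((p : K) ^ a) ≠ 0 := pow_ne_zero _ (by exact_mod_cast hp.ne_zero)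
  -- the polynomial `q^d m(T/q)`
  set m := minpoly ℤ (z / (p : K) ^ a) with hm
  have hmm : m.Monic := minpoly.monic hd
  have h2 : aeval z (scaleRoots m ((p : ℤ) ^ a)) = 0 := by
    have h3 := scaleRoots_aeval_eq_zero (p := m) (r := (p : ℤ) ^ a) (a := z / (p : K) ^ a)
      (minpoly.aeval ℤ _)
    have h4 : (algebraMap ℤ K) ((p : ℤ) ^ a) * (z / (p : K) ^ a) = z := by
      rw [eq_intCast]
      push_cast
      rw [mul_div_cancel₀ _ hq]
    rwa [h4] at h3
  have h5 := minpoly.isIntegrallyClosed_dvd hi h2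
  have h6 : aeval z' (scaleRoots m ((p : ℤ) ^ a)) = 0 := by
    obtain ⟨H, hH⟩ := h5
    rw [hH, map_mul, hz', zero_mul]
  refine ⟨m, hmm, ?_⟩
  have h7 : aeval (z' / (p : K) ^ a) m = 0 := by
    have h8 : (scaleRoots m ((p : ℤ) ^ a)).map (Int.castRingHom K) =
        scaleRoots (m.map (Int.castRingHom K)) ((p : K) ^ a) := by
      rw [map_scaleRoots]
      · simp
      · rw [hmm.leadingCoeff]; simp
    have h9 := scaleRoots_eval₂_mul (p := m.map (Int.castRingHom K)) (RingHom.id K)
      (z' / (p : K) ^ a) ((p : K) ^ a)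
    simp only [RingHom.id_apply, eval₂_id] at h9
    rw [mul_div_cancel₀ _ hq, ← h8, eval_map] at h9
    have h10 : eval₂ (Int.castRingHom K) z' (scaleRoots m ((p : ℤ) ^ a)) = 0 := by
      rw [aeval_def] at h6; exact h6
    rw [h10] at h9
    have h11 := (mul_eq_zero.1 h9.symm).resolve_left (pow_ne_zero _ hq)
    rw [eval_map] at h11
    rw [aeval_def]
    exact h11
  rwa [aeval_def] at h7

/-- there are at least `2 s` eigenvalues which are not divisible by `q` -/
theorem two_ur_le {p a w : ℕ} (hp : p.Prime) (ha : 0 < a) (hw0 : 0 < w) {K : Type*} [Field K]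
    [CharZero K] [IsAlgClosed K] {P : ℤ[X]} (hP : P.Monic)
    (hw : ∀ z : ℂ, aeval z P = 0 → ‖z‖ ^ 2 = ((p : ℝ) ^ a) ^ w) :
    ∃ S : Finset K, (∀ z ∈ S, aeval z P = 0 ∧ ¬ IsIntegral ℤ (z / (p : K) ^ a)) ∧
      2 * ur p P ≤ ∑ z ∈ S, mu P z := by
  classical
  set PK : K[X] := P.map (Int.castRingHom K) with hPK
  have hPKm : PK.Monic := hP.map _
  set NT : K → Prop := fun z => ¬ IsIntegral ℤ (z / (p : K) ^ a) with hNT
  set S : Finset K := PK.roots.toFinset.filter NT with hS
  have hSmem : ∀ z, z ∈ S ↔ aeval z P = 0 ∧ NT z := by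
    intro z
    rw [hS, Finset.mem_filter, Multiset.mem_toFinset, mem_roots hPKm.ne_zero, IsRoot, hPK,
      eval_map, aeval_def]
    rfl
  obtain ⟨Z, hZS, hinj, himg⟩ : ∃ Z ⊆ S, Set.InjOn (minpoly ℤ : K → ℤ[X]) (Z : Set K) ∧
      Z.image (minpoly ℤ) = S.image (minpoly ℤ) := by
    obtain ⟨Z, h1, h2, h3⟩ := Finset.exists_subset_injOn_image_eq_of_surjOn (f := minpoly ℤ)
      (S : Set K) (S.image (minpoly ℤ)) (by
        intro y hy
        rw [Finset.coe_image] at hy
        exact hy)
    exact ⟨Z, by exact_mod_cast h1, h2, h3⟩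
  have hZ : ∀ z ∈ Z, aeval z P = 0 := fun z hz => ((hSmem z).1 (hZS hz)).1
  have hZn : ∀ z ∈ Z, NT z := fun z hz => ((hSmem z).1 (hZS hz)).2
  obtain ⟨G, hGm, hG⟩ := factor_set hP Z hZ (fun z hz z' hz' h => hinj hz hz' h)
  set R : ℤ[X] := ∏ w ∈ Z, (minpoly ℤ w) ^ (mu P w) with hR
  have hRm : R.Monic := monic_prod_of_monic _ _ fun w hw =>
    (minpoly.monic (integral_of_root hP (hZ w hw))).pow _
  -- roots of `G` are divisible by `q`
  have hGr : ∀ z : K, aeval z G = 0 → IsIntegral ℤ (z / (p : K) ^ a) := by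
    intro z hz
    have hzP : aeval z P = 0 := by rw [hG, map_mul, hz, mul_zero]
    by_contra hni
    have hzn : NT z := hni
    have hzS : z ∈ S := (hSmem z).2 ⟨hzP, hzn⟩
    have h1 : minpoly ℤ z ∈ Z.image (minpoly ℤ) := by
      rw [himg]; exact Finset.mem_image_of_mem _ hzS
    obtain ⟨w, hwZ, hw1⟩ := Finset.mem_image.1 h1
    have hwi := integral_of_root hP (hZ w hwZ)
    have hzi := integral_of_root hP hzP
    have h2 : minpoly ℤ z ∣ G := minpoly.isIntegrallyClosed_dvd hzi hz
    have h3 : aeval w G = 0 := by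
      obtain ⟨H, hH⟩ := h2
      rw [hH, ← hw1, map_mul, minpoly.aeval, zero_mul]
    have h4 : mu P w = rootMultiplicity w (R.map (Int.castRingHom K)) +
        rootMultiplicity w (G.map (Int.castRingHom K)) := by
      unfold mu
      conv_lhs => rw [hG]
      rw [Polynomial.map_mul, rootMultiplicity_mul (mul_ne_zero (hRm.map _).ne_zero
        (hGm.map _).ne_zero)]
    have h5 : mu P w ≤ rootMultiplicity w (R.map (Int.castRingHom K)) := by
      rw [le_rootMultiplicity_iff (hRm.map _).ne_zero]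
      have h6 : (minpoly ℤ w) ^ (mu P w) ∣ R := Finset.dvd_prod_of_mem _ hwZ
      have h7 := Polynomial.map_dvd (Int.castRingHom K) h6
      rw [Polynomial.map_pow] at h7
      refine dvd_trans (pow_dvd_pow_of_dvd (dvd_iff_isRoot.2 ?_) _) h7
      rw [IsRoot, eval_map]
      have := minpoly.aeval ℤ w
      rwa [aeval_def] at this
    have h6 : 0 < rootMultiplicity w (G.map (Int.castRingHom K)) := by
      rw [rootMultiplicity_pos (hGm.map _).ne_zero, IsRoot, eval_map]
      rwa [aeval_def] at h3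
    omega
  have hur : ur p P = ur p R := by
    have h1 := ur_zero hp ha hGm hGr
    have h2 := ur_add hp hP
    have h3 := ur_add hp hRm
    have h4 := ur_add hp hGm
    have h5 : td p P = td p R + td p G := by
      conv_lhs => rw [hG]
      exact td_mul hp hRm hGm
    have h6 : P.natDegree = R.natDegree + G.natDegree := by
      conv_lhs => rw [hG]
      exact hRm.natDegree_mul hGm
    omega
  have h7 := ur_half hp ha hw0 hRm (fun z hz => hw z (by rw [hG, map_mul, hz, zero_mul]))
  refine ⟨S, fun z hz => (hSmem z).1 hz, ?_⟩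
  rw [hur]
  refine h7.trans ?_
  -- the degree of `R`
  set RK : K[X] := R.map (Int.castRingHom K) with hRK
  have hRKm : RK.Monic := hRm.map _
  have hcard : RK.roots.card = R.natDegree := by
    have h1 := (IsAlgClosed.splits RK)
    rw [← (splits_iff_card_roots.1 h1).symm, hRm.natDegree_map]
  rw [← hcard, ← Multiset.toFinset_sum_count_eq]
  have hsub : RK.roots.toFinset ⊆ S := by
    intro z hz
    rw [Multiset.mem_toFinset, mem_roots hRKm.ne_zero, IsRoot, hRK, eval_map] at hz
    have hzR : aeval z R = 0 := by rw [aeval_def]; exact hz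
    rw [hSmem]
    refine ⟨by rw [hG, map_mul, hzR, zero_mul], ?_⟩
    rw [hR, map_prod, Finset.prod_eq_zero_iff] at hzR
    obtain ⟨w, hwZ, hw1⟩ := hzR
    rw [map_pow] at hw1
    have hw2 : aeval z (minpoly ℤ w) = 0 := eq_zero_of_pow_eq_zero hw1
    intro hdz
    have hwi := integral_of_root hP (hZ w hwZ)
    have hzi : IsIntegral ℤ z := integral_of_root (minpoly.monic hwi) hw2
    have h3 : minpoly ℤ z ∣ minpoly ℤ w := minpoly.isIntegrallyClosed_dvd hzi hw2
    have h5 : Associated (minpoly ℤ z) (minpoly ℤ w) :=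
      (((minpoly.irreducible hwi).dvd_iff.1 h3).resolve_left
        (minpoly.irreducible hzi).not_isUnit).symm
    have h6 : minpoly ℤ z = minpoly ℤ w :=
      eq_of_monic_of_associated (minpoly.monic hzi) (minpoly.monic hwi) h5
    exact hZn w hwZ (conj_div hp hzi (by rw [h6]; exact minpoly.aeval ℤ w) hdz)
  refine (Finset.sum_le_sum_of_subset hsub).trans ?_
  apply Finset.sum_le_sum
  intro z _
  rw [count_roots]
  unfold mu
  apply rootMultiplicity_le_rootMultiplicity_of_dvd hPKm.ne_zero
  exact Polynomial.map_dvd _ ⟨G, hG⟩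

/-- if `|z|² = q^w` with `w < 2 c`, then `z / q^c` is not integral -/
theorem nondiv_weight {p a w c : ℕ} (hp : p.Prime) (ha : 0 < a) (hw2 : w < 2 * c) {K : Type*}
    [Field K] [CharZero K] [IsAlgClosed K] {P : ℤ[X]} (hP : P.Monic)
    (hw : ∀ z : ℂ, aeval z P = 0 → ‖z‖ ^ 2 = ((p : ℝ) ^ a) ^ w) {z : K}
    (hz : aeval z P = 0) : ¬ IsIntegral ℤ (z / (p : K) ^ (a * c)) := by
  intro hd
  have hi := integral_of_root hP hz
  have hEm := minpoly.monic hi
  have hEP : minpoly ℤ z ∣ P := minpoly.isIntegrallyClosed_dvd hi hz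
  have hdeg := minpoly.natDegree_pos hi
  have h1 := coeff_slope (p := p) (u := a * c) (h := 1) hp one_pos (K := K) hEm
    (by intro z' hz'; rw [pow_one]; exact conj_div hp hi hz' hd) 0
  rw [pow_one, Nat.sub_zero] at h1
  have h2 := coeff_zero_sq (Q := (p ^ a) ^ w) hEm (by
    intro x hx
    obtain ⟨H, hH⟩ := hEP
    rw [hw x (by rw [hH, map_mul, hx, zero_mul])]
    push_cast
    rfl)
  have h3 : p ^ (a * c * (minpoly ℤ z).natDegree) ∣ ((minpoly ℤ z).coeff 0).natAbs := by
    have := Int.natAbs_dvd_natAbs.2 h1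
    rwa [Int.natAbs_pow, Int.natAbs_natCast] at this
  have h4 : (p ^ (a * c * (minpoly ℤ z).natDegree)) ^ 2 ∣
      ((p ^ a) ^ w) ^ (minpoly ℤ z).natDegree := by
    rw [← h2]; exact pow_dvd_pow_of_dvd h3 2
  rw [← pow_mul, ← pow_mul, ← pow_mul, Nat.pow_dvd_pow_iff_le_right hp.one_lt] at h4
  have h5 : 0 < a * (minpoly ℤ z).natDegree := Nat.mul_pos ha hdeg
  have h6 : a * (w * (minpoly ℤ z).natDegree) = a * (minpoly ℤ z).natDegree * w := by ring
  have h7 : a * c * (minpoly ℤ z).natDegree * 2 = a * (minpoly ℤ z).natDegree * (2 * c) := by ring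
  rw [h6, h7] at h4
  have := Nat.le_of_mul_le_mul_left h4 h5
  omega

/-- if `a w` is odd, every eigenvalue has a different conjugate of the same multiplicity -/
theorem exists_conj_odd {p a w : ℕ} (hp : p.Prime) (haw : Odd (a * w)) {K : Type*} [Field K]
    [CharZero K] [IsAlgClosed K] {P : ℤ[X]} (hP : P.Monic)
    (hw : ∀ z : ℂ, aeval z P = 0 → ‖z‖ ^ 2 = ((p : ℝ) ^ a) ^ w) {z : K}
    (hz : aeval z P = 0) :
    ∃ z' : K, z' ≠ z ∧ aeval z' (minpoly ℤ z) = 0 ∧ mu P z ≤ mu P z' := by
  classical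
  have hi := integral_of_root hP hz
  obtain ⟨k, G, hGm, hEm, hPG, hk0, hd, hk⟩ := factor hP hz
  set E := minpoly ℤ z with hE
  have hsq := coeff_zero_sq (Q := (p ^ a) ^ w) hEm (by
    intro x hx
    rw [hw x (by rw [hPG, map_mul, map_pow, hx, zero_pow hk0.ne', zero_mul])]
    push_cast
    rfl)
  have h2 : 2 ≤ E.natDegree := by
    by_contra hlt
    have h3 : E.natDegree = 1 := by omega
    rw [h3, pow_one, ← pow_mul] at hsq
    have h4 := congrArg (fun n => padicValNat p n) hsq
    have : Fact p.Prime := ⟨hp⟩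
    have h5 : (E.coeff 0).natAbs ≠ 0 := by
      intro h
      rw [h, zero_pow two_ne_zero] at hsq
      exact (pow_pos hp.pos _).ne hsq
    simp only [padicValNat.prime_pow] at h4
    rw [padicValNat.pow] at h4
    rw [← h4] at haw
    exact (Nat.not_odd_iff_even.2 (even_two_mul _)) haw
  have hEK : (E.map (Int.castRingHom K)).Separable := by
    have h1 : minpoly ℚ z = E.map (algebraMap ℤ ℚ) :=
      minpoly.isIntegrallyClosed_eq_field_fractions' ℚ hi
    have h2 : (minpoly ℚ z).Separable := (minpoly.irreducible hi.tower_top).separable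
    have h3 := (Polynomial.Separable.map h2 (f := algebraMap ℚ K))
    rw [h1, Polynomial.map_map] at h3
    have : (algebraMap ℚ K).comp (algebraMap ℤ ℚ) = Int.castRingHom K := RingHom.ext_int _ _
    rwa [this] at h3
  have hcard : (E.map (Int.castRingHom K)).roots.card = E.natDegree := by
    have h1 := (IsAlgClosed.splits (E.map (Int.castRingHom K)))
    rw [← (splits_iff_card_roots.1 h1).symm, hEm.natDegree_map]
  have hnod := nodup_roots hEK
  have hcard2 : 1 < (E.map (Int.castRingHom K)).roots.toFinset.card := by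
    rw [Multiset.toFinset_card_of_nodup hnod, hcard]; omega
  obtain ⟨z', hz', hne⟩ := Finset.exists_mem_ne hcard2 z
  rw [Multiset.mem_toFinset, mem_roots (hEm.map _).ne_zero] at hz'
  have hz'E : aeval z' E = 0 := by
    rw [IsRoot, eval_map] at hz'
    rw [aeval_def]; exact hz'
  refine ⟨z', hne, hz'E, ?_⟩
  have h3 : mu P z = k := hk
  rw [h3]
  unfold mu
  rw [le_rootMultiplicity_iff (hP.map _).ne_zero, hPG, Polynomial.map_mul, Polynomial.map_pow]
  exact Dvd.dvd.mul_right (pow_dvd_pow_of_dvd (dvd_iff_isRoot.2 hz') _) _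

/-- a separable Hasse-Witt polynomial -/
theorem hw_sep {p a h : ℕ} [Fact p.Prime] {P : ℤ[X]} (hP : P.Monic) (hh : h ≤ P.natDegree)
    {W : (ZMod p)[X]}
    (hW : P.map (Int.castRingHom (ZMod p)) = X ^ (P.natDegree - h) * W) (hsep : W.Separable)
    (h1 : a = 1 ∨ W.coeff 0 ≠ 0) :
    (∀ ρ : AlgebraicClosure (ZMod p), ρ ≠ 0 →
      rootMultiplicity ρ (P.map (Int.castRingHom (AlgebraicClosure (ZMod p)))) ≤ 1) ∧
    a * h ≤ a * ur p P + 1 := by
  classical
  have hp : p.Prime := Fact.out
  set k := AlgebraicClosure (ZMod p)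
  have hW0 : W ≠ 0 := hsep.ne_zero
  constructor
  · intro ρ hρ
    have h2 : P.map (Int.castRingHom k) = X ^ (P.natDegree - h) * W.map (algebraMap (ZMod p) k) := by
      have h3 : Int.castRingHom k = (algebraMap (ZMod p) k).comp (Int.castRingHom (ZMod p)) :=
        RingHom.ext_int _ _
      rw [h3, ← Polynomial.map_map, hW, Polynomial.map_mul, Polynomial.map_pow, map_X]
    have h4 : W.map (algebraMap (ZMod p) k) ≠ 0 :=
      (Polynomial.map_ne_zero_iff (algebraMap (ZMod p) k).injective).2 hW0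
    rw [h2, rootMultiplicity_mul (mul_ne_zero (pow_ne_zero _ X_ne_zero) h4)]
    have h5 : rootMultiplicity ρ (X ^ (P.natDegree - h) : k[X]) = 0 := by
      apply rootMultiplicity_eq_zero
      rw [IsRoot, eval_pow, eval_X]
      exact pow_ne_zero _ hρ
    rw [h5, zero_add]
    exact rootMultiplicity_le_one_of_separable (hsep.map) ρ
  · have h2 : td p P = (P.natDegree - h) + W.natTrailingDegree := by
      unfold td
      rw [hW, natTrailingDegree_mul (pow_ne_zero _ X_ne_zero) hW0, natTrailingDegree_X_pow]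
    have h3 : W.natTrailingDegree ≤ 1 := by
      rw [← rootMultiplicity_eq_natTrailingDegree']
      exact rootMultiplicity_le_one_of_separable hsep 0
    have h4 := ur_add hp hP
    rcases h1 with rfl | h1
    · omega
    · have h5 : W.natTrailingDegree = 0 := by
        apply Nat.le_zero.1
        exact natTrailingDegree_le_of_ne_zero h1
      have h6 : ur p P = h := by omega
      rw [h6]
      omega

/-- an invertible Hasse-Witt matrix: the number of unit roots is `h` -/
theorem hw_ur {p h : ℕ} [Fact p.Prime] {P : ℤ[X]} (hP : P.Monic) (hh : h ≤ P.natDegree)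
    {W : (ZMod p)[X]}
    (hW : P.map (Int.castRingHom (ZMod p)) = X ^ (P.natDegree - h) * W) (h1 : W.coeff 0 ≠ 0) :
    ur p P = h := by
  have hp : p.Prime := Fact.out
  have hW0 : W ≠ 0 := by rintro rfl; exact h1 (coeff_zero 0)
  have h2 : td p P = (P.natDegree - h) + W.natTrailingDegree := by
    unfold td
    rw [hW, natTrailingDegree_mul (pow_ne_zero _ X_ne_zero) hW0, natTrailingDegree_X_pow]
  have h4 := ur_add hp hP
  have h5 : W.natTrailingDegree = 0 := by
    apply Nat.le_zero.1
    exact natTrailingDegree_le_of_ne_zero h1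
  omega

end Y146.HW
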